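import Pool.Agent.H109Z.GeomMean

set_option autoImplicit false

namespace Pool.Agent.Results.MP_f04b5a_an.AGeometricMean

/-- For every weight `α` in `(0,1)`, and so for every `α` in `(0, 1/(1+e^π)]`, there are `f`, `g` in
the class `S`, with the analytic branches `Lf`, `Lg` of `log (f z / z)`, `log (g z / z)` that vanish
at `0`, whose geometric mean `z * exp (α Lf z + (1-α) Lg z)` takes one value at infinitely many
points of the unit disc. -/
theorem result (α : ℝ) (h0 : 0 < α) (h1 : α < 1) :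
    ∃ f g Lf Lg : ℂ → ℂ,
      (DifferentiableOn ℂ f (Metric.ball 0 1) ∧ Set.InjOn f (Metric.ball 0 1) ∧
        f 0 = 0 ∧ deriv f 0 = 1) ∧
      (DifferentiableOn ℂ g (Metric.ball 0 1) ∧ Set.InjOn g (Metric.ball 0 1) ∧
        g 0 = 0 ∧ deriv g 0 = 1) ∧
      (DifferentiableOn ℂ Lf (Metric.ball 0 1) ∧ Lf 0 = 0 ∧
        ∀ z ∈ Metric.ball (0 : ℂ) 1, f z = z * Complex.exp (Lf z)) ∧
      (DifferentiableOn ℂ Lg (Metric.ball 0 1) ∧ Lg 0 = 0 ∧
        ∀ z ∈ Metric.ball (0 : ℂ) 1, g z = z * Complex.exp (Lg z)) ∧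
      ∃ w : ℂ, {z : ℂ | z ∈ Metric.ball (0 : ℂ) 1 ∧
        z * Complex.exp ((α : ℂ) * Lf z + (1 - (α : ℂ)) * Lg z) = w}.Infinite :=
  Pool.Agent.H109Z.GeomMean.main α h0 h1

end Pool.Agent.Results.MP_f04b5a_an.AGeometricMean
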